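import Pool.Agent.Helper97.Fuchs.Defs4

/-!
# Marginals of blocks of i.i.d. letters (used in FU-D5a)
-/

namespace Pool.Agent.Helper97.Fuchs

open MeasureTheory Matrix UpperHalfPlane Filter Topology
open scoped MatrixGroups ENNReal BigOperators

noncomputable section

variable {ι : Type} [Fintype ι]

omit [Fintype ι] in
lemma wt_app (w : ι → ℝ) {m n : ℕ} (u : Fin m → ι) (v : Fin n → ι) :
    wt w (Fin.append u v) = wt w u * wt w v := by
  unfold wt
  rw [Fin.prod_univ_add]
  simp only [Fin.append_left, Fin.append_right]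

lemma wt_sum_one (w : ι → ℝ) (hw : ∑ i, w i = 1) (n : ℕ) : ∑ u : Fin n → ι, wt w u = 1 := by
  classical
  unfold wt
  have h := Finset.prod_univ_sum (fun _ : Fin n => (Finset.univ : Finset ι)) (fun _ i => w i)
  rw [Fintype.piFinset_univ] at h
  rw [← h]
  simp [hw]

lemma wt_pos' {w : ι → ℝ} (hw : IsWt w) {n : ℕ} (u : Fin n → ι) : 0 < wt w u :=
  Finset.prod_pos fun _ _ => hw.pos _

lemma Ex_app (w : ι → ℝ) (m n : ℕ) (F : (Fin (m + n) → ι) → ℝ) :
    Ex w (m + n) F = Ex w m (fun u => Ex w n (fun v => F (Fin.append u v))) := by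
  unfold Ex
  rw [← (Fin.appendEquiv m n).sum_comp, Fintype.sum_prod_type]
  apply Finset.sum_congr rfl
  intro u _
  rw [Finset.mul_sum]
  apply Finset.sum_congr rfl
  intro v _
  have : (Fin.appendEquiv m n) (u, v) = Fin.append u v := rfl
  rw [this, wt_app]
  ring

lemma Ex_const (w : ι → ℝ) (hw : ∑ i, w i = 1) (n : ℕ) (c : ℝ) : Ex w n (fun _ => c) = c := by
  unfold Ex
  rw [← Finset.sum_mul, wt_sum_one w hw, one_mul]

/-- marginal of a block -/
lemma Ex_block (w : ι → ℝ) (hw : ∑ i, w i = 1) (n a m : ℕ) (h : a + m ≤ n)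
    (F : (Fin m → ι) → ℝ) :
    Ex w n (fun u => F (fun k : Fin m => u ⟨a + k, by omega⟩)) = Ex w m F := by
  obtain ⟨c, rfl⟩ := Nat.exists_eq_add_of_le h
  rw [Ex_app]
  have h1 : ∀ (x : Fin (a + m) → ι) (y : Fin c → ι),
      (fun k : Fin m => Fin.append x y ⟨a + k, by omega⟩) =
        fun k : Fin m => x ⟨a + k, by omega⟩ := by
    intro x y
    funext k
    exact Fin.append_left x y ⟨a + k, by omega⟩
  simp only [h1, Ex_const w hw]
  rw [Ex_app]
  have h2 : ∀ (x : Fin a → ι) (y : Fin m → ι),
      (fun k : Fin m => Fin.append x y ⟨a + k, by omega⟩) = y := by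
    intro x y
    funext k
    exact Fin.append_right x y k
  simp only [h2, Ex_const w hw]

lemma Ex_mono' {w : ι → ℝ} (hw : IsWt w) (n : ℕ) {F G : (Fin n → ι) → ℝ} (h : ∀ u, F u ≤ G u) :
    Ex w n F ≤ Ex w n G :=
  Finset.sum_le_sum fun u _ => mul_le_mul_of_nonneg_left (h u) (wt_pos' hw u).le

omit [Fintype ι] in
/-- the product of the letters between two times -/
lemma pre_eq (A : ι → SL(2, ℝ)) {n : ℕ} (u : Fin n → ι) (a m : ℕ) (h : a + m ≤ n) :
    pre A u (a + m) = pre A u a * word A (fun k : Fin m => u ⟨a + k, by omega⟩) := by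
  unfold pre word
  rw [← List.prod_append]
  congr 1
  apply List.ext_getElem
  · simp
    omega
  · intro i h₁ h₂
    rw [List.getElem_take, List.getElem_ofFn]
    rw [List.getElem_append]
    split_ifs with hi
    · rw [List.getElem_take, List.getElem_ofFn]
    · rw [List.getElem_ofFn]
      have hlen : ((List.ofFn fun j => A (u j)).take a).length = a := by
        simp; omega
      congr 2
      apply Fin.ext
      show i = a + (i - _)
      rw [hlen] at hi ⊢
      omega

/-- return probabilities -/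
def retp (w : ι → ℝ) (A : ι → SL(2, ℝ)) (k : ℕ) : ℝ :=
  Ex w k (fun u => open Classical in if word A u = 1 then 1 else 0)

lemma retp_nonneg {w : ι → ℝ} (hw : IsWt w) (A : ι → SL(2, ℝ)) (k : ℕ) : 0 ≤ retp w A k := by
  classical
  unfold retp Ex
  apply Finset.sum_nonneg
  intro u _
  apply mul_nonneg (wt_pos' hw u).le
  show 0 ≤ if word A u = 1 then (1 : ℝ) else 0
  split_ifs <;> norm_num

lemma Ex_pre_eq (w : ι → ℝ) (hw : ∑ i, w i = 1) (A : ι → SL(2, ℝ)) (n a m : ℕ) (h : a + m ≤ n) :
    Ex w n (fun u => open Classical in if pre A u (a + m) = pre A u a then 1 else 0) =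
      retp w A m := by
  classical
  unfold retp
  rw [← Ex_block w hw n a m h]
  unfold Ex
  apply Finset.sum_congr rfl
  intro u _
  congr 1
  have : (pre A u (a + m) = pre A u a) ↔
      word A (fun k : Fin m => u ⟨a + k, by omega⟩) = 1 := by
    rw [pre_eq A u a m h]
    exact mul_eq_left
  simp only [this]

lemma Ex_pre_eq' (w : ι → ℝ) (hw : ∑ i, w i = 1) (A : ι → SL(2, ℝ)) (n a b : ℕ) (ha : a ≤ n)
    (hb : b ≤ n) :
    Ex w n (fun u => open Classical in if pre A u b = pre A u a then 1 else 0) =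
      retp w A (max a b - min a b) := by
  classical
  rcases le_total a b with h | h
  · obtain ⟨m, rfl⟩ := Nat.exists_eq_add_of_le h
    rw [Ex_pre_eq w hw A n a m hb]
    congr 1
    omega
  · obtain ⟨m, rfl⟩ := Nat.exists_eq_add_of_le h
    have := Ex_pre_eq w hw A n b m ha
    have e : Ex w n (fun u => if pre A u b = pre A u (b + m) then (1 : ℝ) else 0) =
        Ex w n (fun u => if pre A u (b + m) = pre A u b then (1 : ℝ) else 0) := by
      unfold Ex
      apply Finset.sum_congr rfl
      intro u _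
      congr 1
      simp only [eq_comm]
    rw [e, this]
    congr 1
    omega

end

end Pool.Agent.Helper97.Fuchs
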