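import Pool.Agent.Helper11.Fuchs.Words
import Pool.Agent.Helper11.Fuchs.Entropy

/-!
# Entropy along a convergent sequence of walks (FU-H)
-/

namespace Pool.Agent.Helper97.Fuchs

open MeasureTheory Matrix UpperHalfPlane Filter Topology
open scoped MatrixGroups ENNReal BigOperators

noncomputable section

variable {ι : Type} [Fintype ι]

omit [Fintype ι] in
lemma tendsto_word (A : ι → SL(2, ℝ)) (An : ℕ → ι → SL(2, ℝ))
    (hA : ∀ i, Tendsto (fun n => An n i) atTop (𝓝 (A i))) {K : ℕ} (u : Fin K → ι) :
    Tendsto (fun n => word (An n) u) atTop (𝓝 (word A u)) := by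
  induction K with
  | zero =>
    have h1 : ∀ B : ι → SL(2, ℝ), word B u = 1 := fun B => by simp [word]
    simp only [h1]
    exact tendsto_const_nhds
  | succ K ih =>
    have h1 : ∀ B : ι → SL(2, ℝ), word B u = B (u 0) * word B (fun k => u k.succ) := fun B => by
      simp [word, List.ofFn_succ]
    simp only [h1]
    exact (hA _).mul (ih _)

omit [Fintype ι] in
lemma word_mem (A : ι → SL(2, ℝ)) {K : ℕ} (u : Fin K → ι) : word A u ∈ grp A := by
  unfold word
  apply Subgroup.list_prod_mem
  intro x hx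
  rw [List.mem_ofFn] at hx
  obtain ⟨j, rfl⟩ := hx
  exact Subgroup.subset_closure (Or.inl ⟨_, rfl⟩)

lemma continuous_entry (i j : Fin 2) : Continuous (fun g : SL(2, ℝ) => g i j) := by
  have h1 : Continuous (fun g : SL(2, ℝ) => g i) := by fun_prop
  exact (continuous_apply j).comp h1

omit [Fintype ι] in
/-- relations of the limit walk persist -/
lemma relation_persist (A : ι → SL(2, ℝ)) (An : ℕ → ι → SL(2, ℝ))
    (hA : ∀ i, Tendsto (fun n => An n i) atTop (𝓝 (A i)))
    {ε : ℝ} (hd : ∀ᶠ n in atTop, Disc ε (grp (An n))) {K : ℕ} (u v : Fin K → ι)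
    (h : word A u = word A v) : ∀ᶠ n in atTop, word (An n) u = word (An n) v := by
  have hε : 0 < ε := by
    obtain ⟨n, hn⟩ := hd.exists
    exact hn.1
  have h1 : Tendsto (fun n => word (An n) u * (word (An n) v)⁻¹) atTop (𝓝 1) := by
    have h2 := (tendsto_word A An hA u).mul (tendsto_word A An hA v).inv
    rwa [h, mul_inv_cancel] at h2
  have h3 : ∀ i j : Fin 2, ∀ᶠ n in atTop,
      |(word (An n) u * (word (An n) v)⁻¹) i j - (1 : SL(2, ℝ)) i j| < ε := by
    intro i j
    have h4 := ((continuous_entry i j).tendsto (1 : SL(2, ℝ))).comp h1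
    have h5 := Metric.tendsto_atTop.1 h4 ε hε
    obtain ⟨N, hN⟩ := h5
    filter_upwards [eventually_ge_atTop N] with n hn
    have := hN n hn
    rwa [Real.dist_eq] at this
  filter_upwards [hd, h3 0 0, h3 0 1, h3 1 0, h3 1 1] with n hn h00 h01 h10 h11
  have h6 := hn.2 (word (An n) u * (word (An n) v)⁻¹)
    (Subgroup.mul_mem _ (word_mem _ u) (Subgroup.inv_mem _ (word_mem _ v))) (by
      intro i j
      fin_cases i <;> fin_cases j
      · exact h00
      · exact h01
      · exact h10
      · exact h11)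
  exact mul_inv_eq_one.1 h6

theorem ent_limit (w : ι → ℝ) (A : ι → SL(2, ℝ)) (wn : ℕ → ι → ℝ) (An : ℕ → ι → SL(2, ℝ))
    (hw0 : IsWt w)
    (hw : ∀ i, Tendsto (fun n => wn n i) atTop (𝓝 (w i)))
    (hA : ∀ i, Tendsto (fun n => An n i) atTop (𝓝 (A i)))
    {ε : ℝ} (hd : ∀ᶠ n in atTop, Disc ε (grp (An n))) (K : ℕ) {δ : ℝ} (hδ : 0 < δ) :
    ∀ᶠ n in atTop, HW (wn n) (An n) K ≤ HW w A K + δ := by
  classical
  -- the weights converge
  have hwt : ∀ u : Fin K → ι, Tendsto (fun n => wt (wn n) u) atTop (𝓝 (wt w u)) := by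
    intro u
    unfold wt
    exact tendsto_finsetProd _ fun k _ => hw (u k)
  have hpos : ∀ u : Fin K → ι, ∀ᶠ n in atTop, 0 < wt (wn n) u := fun u =>
    (hwt u).eventually (lt_mem_nhds (wt_pos' hw0 u))
  have hposall : ∀ᶠ n in atTop, ∀ u : Fin K → ι, 0 < wt (wn n) u := by
    rw [eventually_all]
    exact hpos
  have hrel : ∀ᶠ n in atTop, ∀ u v : Fin K → ι, word A u = word A v →
      word (An n) u = word (An n) v := by
    rw [eventually_all]
    intro u
    rw [eventually_all]
    intro v
    by_cases h : word A u = word A v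
    · filter_upwards [relation_persist A An hA hd u v h] with n hn _
      exact hn
    · exact Eventually.of_forall fun n h' => absurd h' h
  -- continuity of the entropy in the weights
  have hcont : Tendsto (fun n => Hs (fun u : Fin K → ι => wt (wn n) u) (fun u => word A u)) atTop
      (𝓝 (HW w A K)) := by
    unfold HW Hs
    apply tendsto_finsetSum
    intro u _
    apply (hwt u).mul
    apply Tendsto.neg
    apply Tendsto.log
    · exact tendsto_finsetSum _ fun v _ => hwt v
    · exact (lt_of_lt_of_le (wt_pos' hw0 u) (fib_ge (fun u : Fin K → ι => wt w u)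
        (fun v => (wt_pos' hw0 v).le) (fun u => word A u) u)).ne'
  have hlt := hcont.eventually (gt_mem_nhds (lt_add_of_pos_right (HW w A K) hδ))
  filter_upwards [hposall, hrel, hlt] with n hn1 hn2 hn3
  refine le_trans ?_ hn3.le
  unfold HW Hs
  apply Finset.sum_le_sum
  intro u _
  apply mul_le_mul_of_nonneg_left _ (hn1 u).le
  rw [neg_le_neg_iff]
  apply Real.log_le_log
  · exact lt_of_lt_of_le (hn1 u) (fib_ge (fun u : Fin K → ι => wt (wn n) u)
      (fun v => (hn1 v).le) (fun u => word A u) u)
  · apply Finset.sum_le_sum_of_subset_of_nonneg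
    · intro v hv
      simp only [Finset.mem_filter, Finset.mem_univ, true_and] at hv ⊢
      exact hn2 v u hv
    · intro v _ _
      exact (hn1 v).le

end

end Pool.Agent.Helper97.Fuchs
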